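import Pool.Agent.N242.NT.Stm

/-!
# Project NT (helper242): tilings by balls are locally null under `Q` (helper344)
-/

set_option autoImplicit false

open Metric Set Filter Topology

namespace Pool.Agent.N344.NT

open Pool.Agent.N242.NT

universe u

section

variable {X : Type u} [NormedAddCommGroup X] [NormedSpace ℝ X] {B : Set (X × ℝ)}

/-- points deep inside two different balls are far from each other -/
lemma far (hB : Tiling B) {b b' : X × ℝ} (hb : b ∈ B) (hb' : b' ∈ B) (hne : b ≠ b') {p p' : X}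
    {d : ℝ} (hp : ‖p - b.1‖ ≤ b.2 - d) (hp' : ‖p' - b'.1‖ ≤ b'.2 - d) : 2 * d ≤ ‖p - p'‖ := by
  by_contra h
  push Not at h
  obtain ⟨m, hm⟩ : ∃ m : X, m = (1 / 2 : ℝ) • (p + p') := ⟨_, rfl⟩
  have e1 : m - p = -((1 / 2 : ℝ) • (p - p')) := by rw [hm]; module
  have e2 : m - p' = (1 / 2 : ℝ) • (p - p') := by rw [hm]; module
  have n1 : ‖m - p‖ < d := by
    rw [e1, norm_neg, norm_smul, Real.norm_of_nonneg (by norm_num)]
    linarith
  have n2 : ‖m - p'‖ < d := by
    rw [e2, norm_smul, Real.norm_of_nonneg (by norm_num)]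
    linarith
  refine hB.dis b hb b' hb' hne m ?_ ?_
  · calc ‖m - b.1‖ = ‖(m - p) + (p - b.1)‖ := by rw [sub_add_sub_cancel]
      _ ≤ ‖m - p‖ + ‖p - b.1‖ := norm_add_le _ _
      _ < b.2 := by linarith
  · calc ‖m - b'.1‖ = ‖(m - p') + (p' - b'.1)‖ := by rw [sub_add_sub_cancel]
      _ ≤ ‖m - p'‖ + ‖p' - b'.1‖ := norm_add_le _ _
      _ < b'.2 := by linarith

/-- the point of the segment from `x` to the centre at depth `d` -/
lemma pt {x : X} {b : X × ℝ} {d : ℝ} (hb : 0 < b.2) (hd : d ≤ b.2) (hd0 : 0 ≤ d)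
    (hD : b.2 ≤ ‖x - b.1‖) :
    ∃ p : X, ‖p - b.1‖ = b.2 - d ∧ ‖p - x‖ = ‖x - b.1‖ - (b.2 - d) := by
  have hD0 : 0 < ‖x - b.1‖ := by linarith
  refine ⟨b.1 + ((b.2 - d) / ‖x - b.1‖) • (x - b.1), ?_, ?_⟩
  · rw [add_sub_cancel_left, norm_smul, Real.norm_of_nonneg (div_nonneg (by linarith) hD0.le),
      div_mul_cancel₀ _ hD0.ne']
  · have e1 : b.1 + ((b.2 - d) / ‖x - b.1‖) • (x - b.1) - x =
        -((1 - (b.2 - d) / ‖x - b.1‖) • (x - b.1)) := by module
    have h1 : (b.2 - d) / ‖x - b.1‖ ≤ 1 := by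
      rw [div_le_one hD0]
      linarith
    rw [e1, norm_neg, norm_smul, Real.norm_of_nonneg (by linarith)]
    field_simp

/-- a point of a tile is not in the interior of another tile -/
lemma outer (hB : Tiling B) {b b0 : X × ℝ} (hb : b ∈ B) (hb0 : b0 ∈ B) (hne : b ≠ b0) {x : X}
    (hx : ‖x - b0.1‖ ≤ b0.2) : b.2 ≤ ‖x - b.1‖ := by
  by_contra h
  push Not at h
  have h0 := hB.pos b0 hb0
  obtain ⟨d, hd⟩ : ∃ d : ℝ, d = min b0.2 (b.2 - ‖x - b.1‖) := ⟨_, rfl⟩
  have hd0 : 0 < d := by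
    rw [hd]
    exact lt_min h0 (by linarith)
  have hd1 : d ≤ b0.2 := by rw [hd]; exact min_le_left _ _
  have hd2 : d ≤ b.2 - ‖x - b.1‖ := by rw [hd]; exact min_le_right _ _
  have hs : d / b0.2 ≤ 1 := by rw [div_le_one h0]; exact hd1
  have hs0 : 0 ≤ d / b0.2 := by positivity
  have h1 := far hB hb hb0 hne (p := x) (p' := x + (d / b0.2) • (b0.1 - x)) (d := d)
    (by linarith) (by
      have e1 : x + (d / b0.2) • (b0.1 - x) - b0.1 = (1 - d / b0.2) • (x - b0.1) := by module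
      rw [e1, norm_smul, Real.norm_of_nonneg (by linarith)]
      calc (1 - d / b0.2) * ‖x - b0.1‖ ≤ (1 - d / b0.2) * b0.2 :=
            mul_le_mul_of_nonneg_left hx (by linarith)
        _ = b0.2 - d := by field_simp)
  have e2 : x - (x + (d / b0.2) • (b0.1 - x)) = (d / b0.2) • (x - b0.1) := by module
  rw [e2, norm_smul, Real.norm_of_nonneg hs0] at h1
  have h2 : d / b0.2 * ‖x - b0.1‖ ≤ d / b0.2 * b0.2 := mul_le_mul_of_nonneg_left hx hs0
  rw [div_mul_cancel₀ _ h0.ne'] at h2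
  linarith

end

/-- **NT/LNU** -/
theorem t_LNU : S_LNU.{u} := by
  intro X _ _ B hQ hB x δ hδ
  by_contra hcon
  push Not at hcon
  have hinf : ∀ ρ > 0, {b | b ∈ B ∧ δ ≤ b.2 ∧ ‖x - b.1‖ < b.2 + ρ}.Infinite :=
    fun ρ hρ => hcon ρ hρ
  obtain ⟨b0, hb0, hx0⟩ := hB.cov x
  have hr0 := hB.pos b0 hb0
  rcases hx0.lt_or_eq with hlt | heq
  · obtain ⟨ρ, hρd⟩ : ∃ ρ : ℝ, ρ = min (b0.2 - ‖x - b0.1‖) δ := ⟨_, rfl⟩
    have hρ : 0 < ρ := by
      rw [hρd]
      exact lt_min (by linarith) hδ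
    have hρ1 : ρ ≤ b0.2 - ‖x - b0.1‖ := by rw [hρd]; exact min_le_left _ _
    have hρ2 : ρ ≤ δ := by rw [hρd]; exact min_le_right _ _
    apply hinf ρ hρ
    refine (Set.finite_singleton b0).subset ?_
    rintro b ⟨hb, hbδ, hbx⟩
    by_contra hne
    have hne' : b ≠ b0 := hne
    obtain ⟨p, hp1, hp2⟩ := pt (x := x) (d := ρ) (hB.pos b hb) (by linarith) hρ.le
      (outer hB hb hb0 hne' hx0)
    have h1 := far hB hb0 hb hne'.symm (p := x) (p' := p) (d := ρ) (by linarith) hp1.le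
    rw [norm_sub_rev, hp2] at h1
    linarith
  · obtain ⟨d, hd⟩ : ∃ d : ℝ, d = min δ b0.2 := ⟨_, rfl⟩
    have hd0 : 0 < d := by rw [hd]; exact lt_min hδ hr0
    have hd1 : d ≤ δ := by rw [hd]; exact min_le_left _ _
    have hd2 : d ≤ b0.2 := by rw [hd]; exact min_le_right _ _
    -- the sequence of balls
    obtain ⟨f, hf1, hf2⟩ := exists_seq_of_forall_finset_exists (α := ℕ × (X × ℝ))
      (fun a => a.2 ∈ B ∧ a.2 ≠ b0 ∧ δ ≤ a.2.2 ∧ ‖x - a.2.1‖ < a.2.2 + 1 / ((a.1 : ℝ) + 1))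
      (fun a a' => a.1 < a'.1 ∧ a.2 ≠ a'.2) (by
        classical
        intro s _
        obtain ⟨b, hb, hbs⟩ := (hinf (1 / (((s.sup Prod.fst + 1 : ℕ) : ℝ) + 1))
          (by positivity)).exists_notMem_finset (insert b0 (s.image Prod.snd))
        rw [Finset.mem_insert, not_or] at hbs
        refine ⟨(s.sup Prod.fst + 1, b), ⟨hb.1, hbs.1, hb.2.1, hb.2.2⟩, ?_⟩
        intro a ha
        refine ⟨Nat.lt_succ_of_le (Finset.le_sup (f := Prod.fst) ha), ?_⟩
        intro h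
        have h' : a.2 = b := h
        exact hbs.2 (h' ▸ Finset.mem_image_of_mem Prod.snd ha))
    have hmono : StrictMono fun j => (f j).1 := fun i j hij => (hf2 i j hij).1
    have hge : ∀ j, j ≤ (f j).1 := fun j => hmono.le_apply
    have hdiff : ∀ i j, i ≠ j → (f i).2 ≠ (f j).2 := by
      intro i j hij
      rcases lt_or_gt_of_ne hij with h | h
      · exact (hf2 i j h).2
      · exact ((hf2 j i h).2).symm
    -- the points
    have hpt : ∀ j, ∃ p : X, ‖p - (f j).2.1‖ = (f j).2.2 - d ∧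
        ‖p - x‖ = ‖x - (f j).2.1‖ - ((f j).2.2 - d) := fun j =>
      pt (hB.pos _ (hf1 j).1) (by linarith [(hf1 j).2.2.1]) hd0.le
        (outer hB (hf1 j).1 hb0 (hf1 j).2.1 hx0)
    choose p hp1 hp2 using hpt
    have hlow : ∀ j, d ≤ ‖p j - x‖ := by
      intro j
      have h1 := outer hB (hf1 j).1 hb0 (hf1 j).2.1 hx0
      rw [hp2]
      linarith
    have hup : ∀ j, ‖p j - x‖ ≤ d + 1 / ((j : ℝ) + 1) := by
      intro j
      have h1 := (hf1 j).2.2.2
      have h2 : 1 / (((f j).1 : ℝ) + 1) ≤ 1 / ((j : ℝ) + 1) := by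
        apply one_div_le_one_div_of_le (by positivity)
        have : (j : ℝ) ≤ (f j).1 := by exact_mod_cast hge j
        linarith
      rw [hp2]
      linarith
    have hnorm : ∀ v : X, ‖(1 / d : ℝ) • v‖ = ‖v‖ / d := by
      intro v
      rw [norm_smul, Real.norm_of_nonneg (by positivity)]
      ring
    refine hQ ⟨(1 / b0.2 : ℝ) • (x - b0.1), fun j => (1 / d : ℝ) • (p j - x), ?_, ?_, ?_, ?_⟩
    · rw [norm_smul, heq, Real.norm_of_nonneg (by positivity)]
      field_simp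
    · have hlim : Tendsto (fun j : ℕ => 1 + 1 / d * (1 / ((j : ℝ) + 1))) atTop (𝓝 1) := by
        have h1 := (tendsto_one_div_add_atTop_nhds_zero_nat (𝕜 := ℝ)).const_mul (1 / d)
        have h2 := h1.const_add 1
        rwa [mul_zero, add_zero] at h2
      refine tendsto_of_tendsto_of_tendsto_of_le_of_le tendsto_const_nhds hlim ?_ ?_
      · intro j
        show 1 ≤ ‖(1 / d : ℝ) • (p j - x)‖
        rw [hnorm, le_div_iff₀ hd0, one_mul]
        exact hlow j
      · intro j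
        show ‖(1 / d : ℝ) • (p j - x)‖ ≤ 1 + 1 / d * (1 / ((j : ℝ) + 1))
        rw [hnorm, div_le_iff₀ hd0]
        refine (hup j).trans (le_of_eq ?_)
        field_simp
    · intro i j hij
      have h1 := far hB (hf1 i).1 (hf1 j).1 (hdiff i j hij) (hp1 i).le (hp1 j).le
      show 2 ≤ ‖(1 / d : ℝ) • (p i - x) - (1 / d : ℝ) • (p j - x)‖
      rw [← smul_sub, sub_sub_sub_cancel_right, hnorm, le_div_iff₀ hd0]
      exact h1
    · intro j
      have h1 := far hB (hf1 j).1 hb0 (hf1 j).2.1 (p := p j)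
        (p' := x - (d / b0.2) • (x - b0.1)) (hp1 j).le (by
          have e1 : x - (d / b0.2) • (x - b0.1) - b0.1 = (1 - d / b0.2) • (x - b0.1) := by module
          have hs : d / b0.2 ≤ 1 := by rw [div_le_one hr0]; exact hd2
          rw [e1, norm_smul, Real.norm_of_nonneg (by linarith), heq]
          apply le_of_eq
          field_simp)
      show 2 ≤ ‖(1 / b0.2 : ℝ) • (x - b0.1) + (1 / d : ℝ) • (p j - x)‖
      have e2 : (1 / b0.2 : ℝ) • (x - b0.1) + (1 / d : ℝ) • (p j - x) =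
          (1 / d : ℝ) • (p j - (x - (d / b0.2) • (x - b0.1))) := by
        have e3 : (1 / b0.2 : ℝ) = (1 / d) * (d / b0.2) := by field_simp
        rw [e3]
        module
      rw [e2, hnorm, le_div_iff₀ hd0]
      exact h1

end Pool.Agent.N344.NT
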